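import Pool.Agent.U174.AK.Stm

/-!
Project AK, package SIMP: extension of a partial embedding to a simple extension.
-/

set_option autoImplicit false

namespace Pool.Agent.U212.AK.SIMP

open IsLocalRing Polynomial Pool.Agent.U174.AK

section
variable {F L : Type} [Field F] [Field L] (E : Subfield F) (g : E →+* L) (x : F) (y : L)

/-- evaluation at `x` -/
noncomputable def al : E[X] →+* F := eval₂RingHom E.subtype x

/-- evaluation at `y` -/
noncomputable def be : E[X] →+* L := eval₂RingHom g y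

/-- the subfield of all quotients -/
noncomputable def Ex : Subfield F where
  carrier := {z | ∃ Q₁ Q₂ : E[X], al E x Q₂ ≠ 0 ∧ z = al E x Q₁ / al E x Q₂}
  mul_mem' := by
    rintro a b ⟨Q₁, Q₂, h, rfl⟩ ⟨R₁, R₂, h', rfl⟩
    refine ⟨Q₁ * R₁, Q₂ * R₂, ?_, ?_⟩
    · rw [map_mul]; exact mul_ne_zero h h'
    · rw [map_mul, map_mul]; field_simp
  one_mem' := ⟨1, 1, by simp, by simp⟩
  add_mem' := by
    rintro a b ⟨Q₁, Q₂, h, rfl⟩ ⟨R₁, R₂, h', rfl⟩
    refine ⟨Q₁ * R₂ + R₁ * Q₂, Q₂ * R₂, ?_, ?_⟩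
    · rw [map_mul]; exact mul_ne_zero h h'
    · rw [map_add, map_mul, map_mul, map_mul]; field_simp
  zero_mem' := ⟨0, 1, by simp, by simp⟩
  neg_mem' := by
    rintro a ⟨Q₁, Q₂, h, rfl⟩
    exact ⟨-Q₁, Q₂, h, by rw [map_neg, neg_div]⟩
  inv_mem' := by
    rintro a ⟨Q₁, Q₂, h, rfl⟩
    by_cases h0 : al E x Q₁ = 0
    · exact ⟨0, 1, by simp, by simp [h0]⟩
    · exact ⟨Q₂, Q₁, h0, by rw [inv_div]⟩

theorem mem_Ex {z : F} : z ∈ Ex E x ↔ ∃ Q₁ Q₂ : E[X], al E x Q₂ ≠ 0 ∧ z = al E x Q₁ / al E x Q₂ := Iff.rfl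

/-- the value of the extended embedding -/
noncomputable def val' (z : Ex E x) : L :=
  be E g y ((mem_Ex E x).1 z.2).choose / be E g y ((mem_Ex E x).1 z.2).choose_spec.choose

theorem wd (hz : ∀ Q : E[X], al E x Q = 0 ↔ be E g y Q = 0) (Q₁ Q₂ R₁ R₂ : E[X])
    (hQ : al E x Q₂ ≠ 0) (hR : al E x R₂ ≠ 0) (h : al E x Q₁ / al E x Q₂ = al E x R₁ / al E x R₂) :
    be E g y Q₁ / be E g y Q₂ = be E g y R₁ / be E g y R₂ := by
  have hQ' : be E g y Q₂ ≠ 0 := fun h0 => hQ ((hz Q₂).2 h0)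
  have hR' : be E g y R₂ ≠ 0 := fun h0 => hR ((hz R₂).2 h0)
  rw [div_eq_div_iff hQ hR] at h
  rw [div_eq_div_iff hQ' hR']
  have h1 : al E x (Q₁ * R₂ - R₁ * Q₂) = 0 := by
    rw [map_sub, map_mul, map_mul, h, sub_self]
  have h2 := (hz _).1 h1
  rw [map_sub, map_mul, map_mul, sub_eq_zero] at h2
  exact h2

theorem val'_eq (hz : ∀ Q : E[X], al E x Q = 0 ↔ be E g y Q = 0) (z : Ex E x) (R₁ R₂ : E[X])
    (hR : al E x R₂ ≠ 0) (h : (z : F) = al E x R₁ / al E x R₂) :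
    val' E g x y z = be E g y R₁ / be E g y R₂ := by
  obtain ⟨h1, h2⟩ := ((mem_Ex E x).1 z.2).choose_spec.choose_spec
  exact wd E g x y hz _ _ _ _ h1 hR (h2.symm.trans h)

/-- the extended embedding -/
noncomputable def gx (hz : ∀ Q : E[X], al E x Q = 0 ↔ be E g y Q = 0) : Ex E x →+* L where
  toFun := val' E g x y
  map_one' := by
    rw [val'_eq E g x y hz 1 1 1 (by simp) (by simp)]
    simp
  map_zero' := by
    rw [val'_eq E g x y hz 0 0 1 (by simp) (by simp)]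
    simp
  map_mul' := by
    intro a b
    obtain ⟨Q₁, Q₂, h, ha⟩ := (mem_Ex E x).1 a.2
    obtain ⟨R₁, R₂, h', hb⟩ := (mem_Ex E x).1 b.2
    have hQ' : be E g y Q₂ ≠ 0 := fun h0 => h ((hz Q₂).2 h0)
    have hR' : be E g y R₂ ≠ 0 := fun h0 => h' ((hz R₂).2 h0)
    rw [val'_eq E g x y hz a Q₁ Q₂ h ha, val'_eq E g x y hz b R₁ R₂ h' hb,
      val'_eq E g x y hz (a * b) (Q₁ * R₁) (Q₂ * R₂) (by rw [map_mul]; exact mul_ne_zero h h')
        (by rw [Subfield.coe_mul, ha, hb, map_mul, map_mul]; field_simp)]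
    rw [map_mul, map_mul]
    field_simp
  map_add' := by
    intro a b
    obtain ⟨Q₁, Q₂, h, ha⟩ := (mem_Ex E x).1 a.2
    obtain ⟨R₁, R₂, h', hb⟩ := (mem_Ex E x).1 b.2
    have hQ' : be E g y Q₂ ≠ 0 := fun h0 => h ((hz Q₂).2 h0)
    have hR' : be E g y R₂ ≠ 0 := fun h0 => h' ((hz R₂).2 h0)
    rw [val'_eq E g x y hz a Q₁ Q₂ h ha, val'_eq E g x y hz b R₁ R₂ h' hb,
      val'_eq E g x y hz (a + b) (Q₁ * R₂ + R₁ * Q₂) (Q₂ * R₂) (by rw [map_mul]; exact mul_ne_zero h h')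
        (by rw [Subfield.coe_add, ha, hb, map_add, map_mul, map_mul, map_mul]; field_simp)]
    rw [map_add, map_mul, map_mul, map_mul]
    field_simp

end

theorem t_SIMP : S_SIMP := by
  intro F L _ _ O P ρ ν hν E g hg x y hv hr
  have hz : ∀ Q : E[X], al E x Q = 0 ↔ be E g y Q = 0 := by
    intro Q
    have h := hv Q
    constructor
    · intro h0
      have h0' : Q.eval₂ E.subtype x = 0 := h0
      rw [h0', map_zero, map_zero, Valuation.zero_iff] at h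
      exact h
    · intro h0
      have h0' : Q.eval₂ g y = 0 := h0
      rw [h0', map_zero] at h
      have h1 := (map_eq_zero ν).1 h.symm
      exact (Valuation.zero_iff _).1 h1
  refine ⟨Ex E x, gx E g x y hz, ?_, ?_, ?_, ?_⟩
  · have hle : E ≤ Ex E x := fun a ha => ⟨C ⟨a, ha⟩, 1, by simp, by simp [al]⟩
    refine ⟨hle, fun a => ?_⟩
    have := val'_eq E g x y hz ⟨a, hle a.2⟩ (C a) 1 (by simp) (by simp [al])
    refine Eq.trans this ?_
    simp [be]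
  · constructor
    · intro z
      obtain ⟨Q₁, Q₂, h, ha⟩ := (mem_Ex E x).1 z.2
      have := val'_eq E g x y hz z Q₁ Q₂ h ha
      change P.valuation (val' E g x y z) = _
      rw [this, ha, map_div₀, map_div₀, map_div₀]
      exact congrArg₂ (· / ·) (hv Q₁) (hv Q₂)
    · intro z
      obtain ⟨Q₁, Q₂, h, ha⟩ := (mem_Ex E x).1 z.2
      have := val'_eq E g x y hz z Q₁ Q₂ h ha
      change rs P (val' E g x y z) = _
      rw [this, ha]
      exact hr Q₁ Q₂ h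
  · have hx : x ∈ Ex E x := ⟨X, 1, by simp, by simp [al]⟩
    refine ⟨hx, ?_⟩
    have := val'_eq E g x y hz ⟨x, hx⟩ X 1 (by simp) (by simp [al])
    refine Eq.trans this ?_
    simp [be]
  · intro z hz'
    obtain ⟨Q₁, Q₂, h, ha⟩ := (mem_Ex E x).1 hz'
    exact ⟨Q₁, Q₂, h, ha⟩

end Pool.Agent.U212.AK.SIMP
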